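import Pool.Agent.H64.EK.Targets

/-!
# Row EKM (MP_fd35e1_ag): the antisymmetrizer is numerically trivial
-/

set_option autoImplicit false

open Matrix Pool.Agent.H64.CC Pool.Agent.H2.NL Pool.Agent.H2.KM Pool.Agent.H64.EV
  Pool.Agent.H64.EK

namespace Pool.Agent.H12.EK

section

variable {K : Type} [Field K] {I : Type}

theorem selz_perm (z : K) (o : I → Bool) : ∀ (v : List I), ∀ x ∈ selz z o v,
    (x.2.1 :: x.2.2).Perm v
  | [], x, hx => by simp [selz] at hx
  | b :: v, x, hx => by
    unfold selz at hx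
    rcases List.mem_cons.1 hx with h | h
    · rw [h]
    · obtain ⟨y, hy, rfl⟩ := List.mem_map.1 h
      have h1 := selz_perm z o v y hy
      exact (List.Perm.swap b y.2.1 y.2.2).trans (h1.cons b)

theorem exists_of_sum_ne {α : Type} (f : α → K) : ∀ (l : List α), (l.map f).sum ≠ 0 →
    ∃ x ∈ l, f x ≠ 0
  | [], h => (h rfl).elim
  | a :: l, h => by
    by_cases ha : f a = 0
    · have h1 : (l.map f).sum ≠ 0 := by
        intro h2
        apply h
        rw [List.map_cons, List.sum_cons, ha, h2, add_zero]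
      obtain ⟨x, hx, hx'⟩ := exists_of_sum_ne f l h1
      exact ⟨x, List.mem_cons_of_mem _ hx, hx'⟩
    · exact ⟨a, List.mem_cons_self, ha⟩

theorem xp_perm [DecidableEq I] (z : K) (o : I → Bool) : ∀ (u v : List I),
    xp z o (1 : Matrix I I K) u v ≠ 0 → v.Perm u
  | [], [], _ => List.Perm.refl _
  | [], _ :: _, h => by
    exfalso
    apply h
    unfold xp
    rfl
  | a :: u, v, h => by
    unfold xp at h
    obtain ⟨x, hx, hx'⟩ := exists_of_sum_ne _ _ h
    have h1 : xp z o (1 : Matrix I I K) u x.2.2 ≠ 0 := right_ne_zero_of_mul hx'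
    have h2 : (1 : Matrix I I K) a x.2.1 ≠ 0 := right_ne_zero_of_mul (left_ne_zero_of_mul hx')
    have h3 : a = x.2.1 := by
      by_contra h4
      exact h2 (Matrix.one_apply_ne h4)
    have h5 := xp_perm z o u x.2.2 h1
    have h6 := selz_perm z o v x hx
    rw [← h3] at h6
    exact h6.symm.trans (h5.cons a)

theorem sgw_perm (o : I → Bool) {u v : List I} (h : u.Perm v) : sgw K o u = sgw K o v :=
  (h.map _).prod_eq

theorem twl_sq (o : I → Bool) : ∀ (w : List I) (i : ℕ), twl K o i w * twl K o i w = 1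
  | [], i => by simp [twl]
  | a :: w, i => by
    have h1 := twl_sq o w (i + 1)
    have h2 : sg K (o a) ^ i * sg K (o a) ^ i = 1 := by
      rw [← mul_pow, sg_mul_self, one_pow]
    show sg K (o a) ^ i * twl K o (i + 1) w * (sg K (o a) ^ i * twl K o (i + 1) w) = 1
    calc _ = (sg K (o a) ^ i * sg K (o a) ^ i) * (twl K o (i + 1) w * twl K o (i + 1) w) := by ring
      _ = 1 := by rw [h1, h2, one_mul]

theorem ks_fo (p q : Bool) : ks K (!p) (!q) * (sg K p * sg K q) = -ks K p q := by
  unfold ks sg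
  cases p <;> cases q <;> simp

theorem twl_ex (o : I → Bool) : ∀ (j : ℕ) (u : List I) (i : ℕ), j + 2 ≤ u.length →
    sgx K (fo o) j u * twl K o i (ex j u) = -(twl K o i u * sgx K o j u)
  | 0, a :: b :: l, i, _ => by
    show ks K (!o a) (!o b) * (sg K (o b) ^ i * (sg K (o a) ^ (i + 1) * twl K o (i + 1 + 1) l)) =
      -(sg K (o a) ^ i * (sg K (o b) ^ (i + 1) * twl K o (i + 1 + 1) l) * ks K (o a) (o b))
    have h1 := ks_fo (K := K) (o a) (o b)
    have h2 := sg_mul_self K (o b)
    rw [pow_succ, pow_succ]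
    linear_combination (sg K (o b) ^ i * sg K (o a) ^ i * twl K o (i + 1 + 1) l * sg K (o b)) * h1
      - (sg K (o b) ^ i * sg K (o a) ^ i * twl K o (i + 1 + 1) l * ks K (!o a) (!o b) *
          sg K (o a)) * h2
  | 0, [_], i, h => by simp at h
  | 0, [], i, h => by simp at h
  | j + 1, a :: l, i, h => by
    have h1 := twl_ex o j l (i + 1) (by simpa using h)
    show sgx K (fo o) j l * (sg K (o a) ^ i * twl K o (i + 1) (ex j l)) =
      -(sg K (o a) ^ i * twl K o (i + 1) l * sgx K o j l)
    linear_combination (sg K (o a) ^ i) * h1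
  | _ + 1, [], i, h => by simp at h

end

section

variable {K : Type} [Field K] {I : Type} [Fintype I] [DecidableEq I]

theorem px_dia (o : I → Bool) (n j : ℕ) (hj : j + 2 ≤ n) :
    Px K (fo o) n j * Matrix.diagonal (fun u : List.Vector I n => twl K o 0 u.1) =
      -(Matrix.diagonal (fun u : List.Vector I n => twl K o 0 u.1) * Px K o n j) := by
  ext u v
  rw [Matrix.mul_diagonal, Matrix.neg_apply, Matrix.diagonal_mul]
  unfold Px
  rw [Matrix.of_apply, Matrix.of_apply]
  by_cases h : ex j u.1 = v.1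
  · rw [if_pos h, if_pos h, ← h]
    exact twl_ex o j u.1 0 (by rw [u.2]; exact hj)
  · rw [if_neg h, if_neg h, zero_mul, mul_zero, neg_zero]

theorem dia_sq (o : I → Bool) (n : ℕ) :
    Matrix.diagonal (fun u : List.Vector I n => twl K o 0 u.1) *
      Matrix.diagonal (fun u : List.Vector I n => twl K o 0 u.1) = 1 := by
  rw [Matrix.diagonal_mul_diagonal, ← Matrix.diagonal_one]
  congr 1
  funext u
  exact twl_sq o u.1 0

theorem con_smul (η : Matrix I I K) (c : K) (t : List I → K) :
    con η 0 (c • t) = c • con η 0 t := by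
  funext w
  show ∑ a, ∑ b, η a b * (c * t (a :: b :: w)) = c * ∑ a, ∑ b, η a b * t (a :: b :: w)
  rw [Finset.mul_sum]
  refine Finset.sum_congr rfl fun a _ => ?_
  rw [Finset.mul_sum]
  exact Finset.sum_congr rfl fun b _ => by ring

theorem itc_smul (F : Form K I) (c : K) : ∀ (n : ℕ) (t : List I → K),
    itc F n (c • t) = c * itc F n t
  | 0, t => rfl
  | n + 1, t => by
    show itc F n (con F.η 0 (c • t)) = c * itc F n (con F.η 0 t)
    rw [con_smul, itc_smul F c n]

theorem itc_Xt (hEX2 : T_EX2) (F : OForm K I) : ∀ (n : ℕ) (x : List I → List I → K),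
    GS (fo F.o) x → itc F.tl n (Xt F x) = 2 ^ n * ((oC F)^[n] x) [] []
  | 0, x, _ => by
    show Xt F x [] = _
    simp [Xt, kap, Gp]
  | n + 1, x, hx => by
    obtain ⟨h1, h2⟩ := hEX2 K I F x hx
    show itc F.tl n (con F.tl.η 0 (Xt F x)) = _
    rw [h2, itc_smul, itc_Xt hEX2 F n _ h1, Function.iterate_succ_apply]
    ring

end

theorem pf_EKM (hTPR : T_TPR) (hFLP : T_FLP) (hBSX : T_BSX) (hEX1 : T_EX1) (hEX2 : T_EX2)
    (hETR : T_ETR) (hXPZ : T_XPZ) (hOML : T_OML) : T_EKM := by
  intro K _ _ I _ _ F A hA hE l hl hsd y hy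
  have hpar : ∀ a b, F.η a b ≠ 0 → F.o a = F.o b := by
    intro a b hab
    have hb : b = F.st a := by
      by_contra hne
      apply hab
      unfold OForm.η
      rw [Matrix.of_apply, if_neg hne]
    rw [hb, F.o_st]
  obtain ⟨hSS, hPx, ⟨z, hz, hzS⟩, -⟩ := hXPZ K I F.o F.η F.ω A hA F.η_mul_ω F.ω_mul_η hpar (-1)
    (Or.inr rfl) l
  obtain ⟨S, hS⟩ : ∃ S : Matrix (List.Vector I l) (List.Vector I l) K, S = Xp (-1) F.o 1 l :=
    ⟨_, rfl⟩
  obtain ⟨X, hX⟩ : ∃ X : Matrix (List.Vector I l) (List.Vector I l) K, X = op F.η l y := ⟨_, rfl⟩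
  rw [← hS] at hSS hPx hzS ⊢
  rw [← hX]
  obtain ⟨t1, ht1, ht1'⟩ := (hOML K I F A hA l).1 y hy z hz
  obtain ⟨t, ht, ht'⟩ := (hOML K I F A hA l).1 z hz t1 ht1
  rw [ht1', hzS, ← hX] at ht'
  -- the opposite parity
  obtain ⟨hC', hop⟩ := hFLP K I F.o F.η F.ω A hpar hA
  obtain ⟨t', htt⟩ : ∃ t' : List I → K, t' = fun w => twl K F.o 0 w * t w := ⟨_, rfl⟩
  have htw : (fun w => twl K F.o 0 w * t' w) = t := by
    funext w
    rw [htt]
    show twl K F.o 0 w * (twl K F.o 0 w * t w) = t w
    rw [← mul_assoc, twl_sq, one_mul]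
  have htA : t' ∈ fA F.o A l := by
    show (fun w => twl K F.o 0 w * t' w) ∈ A l
    rw [htw]
    exact ht
  obtain ⟨D, hD⟩ : ∃ D : Matrix (List.Vector I l) (List.Vector I l) K,
    D = Matrix.diagonal (fun u : List.Vector I l => twl K F.o 0 u.1) := ⟨_, rfl⟩
  have hopt : op (feta F.o F.η) l t' = D * (S * (X * S)) * D := by
    rw [hop l t', htw, ht', hD]
  have hDD : D * D = 1 := by rw [hD]; exact dia_sq F.o l
  have hPD : ∀ j, j + 2 ≤ l → Px K (fo F.o) l j * D = -(D * Px K F.o l j) := by
    intro j hj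
    rw [hD]
    exact px_dia F.o l j hj
  have hDP : ∀ j, j + 2 ≤ l → D * Px K (fo F.o) l j = -(Px K F.o l j * D) := by
    intro j hj
    calc D * Px K (fo F.o) l j = D * (Px K (fo F.o) l j * D) * D := by
          rw [Matrix.mul_assoc, Matrix.mul_assoc, hDD, Matrix.mul_one]
      _ = -(D * D * Px K F.o l j * D) := by
          rw [hPD j hj, Matrix.mul_neg, Matrix.neg_mul, ← Matrix.mul_assoc]
      _ = -(Px K F.o l j * D) := by rw [hDD, Matrix.one_mul]
  have e1 : feta F.o F.η * fom F.o F.ω = 1 := by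
    ext a b
    have h1 := congrFun (congrFun F.η_mul_ω a) b
    rw [Matrix.mul_apply] at h1 ⊢
    have h2 : ∀ c, feta F.o F.η a c * fom F.o F.ω c b =
        sg K (F.o a) * sg K (F.o b) * (F.η a c * F.ω c b) := by
      intro c
      show sg K (F.o a) * F.η a c * (F.ω c b * sg K (F.o b)) = _
      ring
    simp_rw [h2]
    rw [← Finset.mul_sum, h1, Matrix.one_apply]
    split_ifs with h3
    · rw [h3, sg_mul_self, one_mul]
    · rw [mul_zero]
  have e2 : fom F.o F.ω * feta F.o F.η = 1 := mul_eq_one_comm.1 e1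
  have e3 : ∀ a b, feta F.o F.η a b ≠ 0 → fo F.o a = fo F.o b := by
    intro a b hab
    have h1 : F.η a b ≠ 0 := by
      intro h0
      apply hab
      show sg K (F.o a) * F.η a b = 0
      rw [h0, mul_zero]
    unfold fo
    rw [hpar a b h1]
  obtain ⟨x, hx, hxy, hMA⟩ := hBSX K I (fo F.o) (feta F.o F.η) (fom F.o F.ω) (fA F.o A) hC' e1 e2
    e3 l t' htA (fun j hj => by
      rw [hopt]
      constructor
      · calc Px K (fo F.o) l j * (D * (S * (X * S)) * D)
            = (Px K (fo F.o) l j * D) * (S * (X * S)) * D := by simp only [Matrix.mul_assoc]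
          _ = -(D * (Px K F.o l j * S) * (X * S) * D) := by
              rw [hPD j hj]
              simp only [Matrix.neg_mul, Matrix.mul_assoc]
          _ = D * (S * (X * S)) * D := by
              rw [(hPx j hj).1]
              simp only [neg_smul, one_smul, Matrix.neg_mul, Matrix.mul_neg, neg_neg,
                Matrix.mul_assoc]
      · calc D * (S * (X * S)) * D * Px K (fo F.o) l j
            = D * (S * (X * S)) * (D * Px K (fo F.o) l j) := by simp only [Matrix.mul_assoc]
          _ = -(D * (S * (X * (S * Px K F.o l j))) * D) := by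
              rw [hDP j hj]
              simp only [Matrix.mul_neg, Matrix.mul_assoc]
          _ = D * (S * (X * S)) * D := by
              rw [(hPx j hj).2]
              simp only [neg_smul, one_smul, Matrix.neg_mul, Matrix.mul_neg, neg_neg])
  obtain ⟨hTA, hSy⟩ := hEX1 K I F A hA l x hx hMA
  have h4 := hTPR K I F A hA hE l (Xt F x) hl hsd hTA hSy
  rw [itc_Xt hEX2 F l x hx] at h4
  have h5 : ((oC F)^[l] x) [] [] = 0 := by
    rcases mul_eq_zero.1 h4 with h | h
    · exact absurd h (pow_ne_zero _ two_ne_zero)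
    · exact h
  have h6 := hETR K I F l t x hx (fun u v hu hv => by
    rw [← hxy u v hu hv, htt])
  rw [h5, ht'] at h6
  -- the trace
  have hsg : ∀ u w : List.Vector I l, sgw K F.o u.1 * S w u = sgw K F.o w.1 * S w u := by
    intro u w
    by_cases h : S w u = 0
    · rw [h, mul_zero, mul_zero]
    · rw [hS] at h
      have h7 := xp_perm (-1) F.o w.1 u.1 h
      rw [sgw_perm F.o h7]
  have h7 : (l.factorial : K) * ∑ u : List.Vector I l, sgw K F.o u.1 * (X * S) u u = 0 := by
    calc (l.factorial : K) * ∑ u : List.Vector I l, sgw K F.o u.1 * (X * S) u u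
        = ∑ u : List.Vector I l, sgw K F.o u.1 * ((X * S) * S) u u := by
          rw [Matrix.mul_assoc, hSS, Finset.mul_sum]
          refine Finset.sum_congr rfl fun u _ => ?_
          rw [Matrix.mul_smul, Matrix.smul_apply, smul_eq_mul]
          ring
      _ = ∑ u : List.Vector I l, ∑ w : List.Vector I l, sgw K F.o u.1 * ((X * S) u w * S w u) := by
          refine Finset.sum_congr rfl fun u _ => ?_
          rw [Matrix.mul_apply, Finset.mul_sum]
      _ = ∑ w : List.Vector I l, ∑ u : List.Vector I l, sgw K F.o w.1 * (S w u * (X * S) u w) := by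
          rw [Finset.sum_comm]
          refine Finset.sum_congr rfl fun w _ => Finset.sum_congr rfl fun u _ => ?_
          have := hsg u w
          linear_combination (X * S) u w * this
      _ = ∑ w : List.Vector I l, sgw K F.o w.1 * (S * (X * S)) w w := by
          refine Finset.sum_congr rfl fun w _ => ?_
          rw [Matrix.mul_apply (M := S), Finset.mul_sum]
      _ = 0 := h6
  rcases mul_eq_zero.1 h7 with h8 | h8
  · exact absurd h8 (Nat.cast_ne_zero.2 l.factorial_ne_zero)
  · exact h8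

end Pool.Agent.H12.EK
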